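import Pool.Agent.N623.CS.Stm

set_option autoImplicit false

/-! Project CS (helper623), part FUS (helper707): fusion. -/

namespace Pool.Agent.N707.CS

open Set Pool.Agent.N623.CS

theorem t_fus : S_FAC → S_INF → S_STAGE → S_FUS := by
  intro hF hI hS P hP1 hP2 d B
  choose hh hhK hhP using hS P hP1 hP2
  obtain ⟨A, hA0, hA⟩ : ∃ A : ℕ → RS, A 0 = B ∧ ∀ m, A (m + 1) = hh (d + m) (A m) * A m :=
    ⟨fun m => Nat.rec B (fun m A => hh (d + m) A * A) m, rfl, fun _ => rfl⟩
  obtain ⟨H, hHK, hH⟩ := hI d (fun m => hh (d + m) (A m)) fun m => hhK _ _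
  have key : ∀ m, H 0 * B = H m * A m := by
    intro m
    induction m with
    | zero => rw [hA0]
    | succ m ih => rw [ih, hH m, hA m, mul_assoc]
  refine ⟨H 0, hHK 0, fun q hq p w hw => ?_⟩
  obtain ⟨m, rfl⟩ := Nat.exists_eq_add_of_le hq
  obtain ⟨g', hg', he⟩ := hF (d + m) p w hw (w * H (m + 1)) fun j hj => by
    rw [RS.mul_apply, hHK (m + 1) j (by omega)]
  have h1 : w * H 0 * B = g' * (w * hh (d + m) (A m) * A m) := by
    rw [mul_assoc, key (m + 1), hA m, ← mul_assoc, he]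
    simp only [mul_assoc]
  rw [h1]
  exact hP2 _ _ _ _ hg' (hhP _ _ _ _ hw)

end Pool.Agent.N707.CS
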